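import Mathlib

/-! Holomorphic families with a real parameter, locally bounded uniformly in the parameter, and
differentiation of Duhamel's formula (backup for project HS, part EXPN). -/

set_option autoImplicit false

namespace Pool.Agent.X197.HSB

open MeasureTheory Set Filter Topology Real Metric
open scoped Interval

/-- locally bounded families of holomorphic functions with a parameter in `[0, T]` -/
structure LB (U : Set ℂ) (T : ℝ) (G : ℂ → ℝ → ℂ) : Prop where
  hol : ∀ t ∈ Icc 0 T, DifferentiableOn ℂ (fun z => G z t) U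
  con : ∀ z ∈ U, ContinuousOn (fun t => G z t) (Icc 0 T)
  bd : ∀ z ∈ U, ∃ ρ : ℝ, 0 < ρ ∧ closedBall z ρ ⊆ U ∧
    ∃ M : ℝ, ∀ w ∈ closedBall z ρ, ∀ t ∈ Icc 0 T, ‖G w t‖ ≤ M

theorem LB.deriv {U : Set ℂ} {T : ℝ} {G : ℂ → ℝ → ℂ} (hU : IsOpen U) (h : LB U T G) :
    LB U T (fun z t => _root_.deriv (fun w => G w t) z) := by
  refine ⟨fun t ht => (h.hol t ht).deriv hU, ?_, ?_⟩
  · intro z hz
    obtain ⟨ρ, hρ, hsub, M, hM⟩ := h.bd z hz
    have key : ∀ t ∈ Icc 0 T, _root_.deriv (fun w => G w t) z =
        (2 * π * Complex.I : ℂ)⁻¹ * ∫ θ in (0 : ℝ)..2 * π, _root_.deriv (circleMap z ρ) θ •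
          ((1 / (circleMap z ρ θ - z) ^ 2) • G (circleMap z ρ θ) t) := by
      intro t ht
      have := ((h.hol t ht).mono hsub).deriv_eq_smul_circleIntegral hρ
      rw [circleIntegral] at this
      rw [this, smul_eq_mul, ← mul_assoc, inv_mul_cancel₀ Complex.two_pi_I_ne_zero, one_mul]
    refine ContinuousOn.congr ?_ key
    refine continuousOn_const.mul ?_
    intro t0 ht0
    refine intervalIntegral.continuousWithinAt_of_dominated_interval
      (bound := fun _ => ρ * (1 / ρ ^ 2 * M)) ?_ ?_ ?_ ?_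
    · refine eventually_of_mem self_mem_nhdsWithin fun t ht => ?_
      have hmap : ∀ θ : ℝ, circleMap z ρ θ ∈ U := fun θ =>
        hsub (sphere_subset_closedBall (circleMap_mem_sphere z hρ.le θ))
      have hc : Continuous fun θ : ℝ => G (circleMap z ρ θ) t :=
        (h.hol t ht).continuousOn.comp_continuous (continuous_circleMap z ρ) hmap
      have hne : ∀ θ : ℝ, circleMap z ρ θ - z ≠ 0 := by
        intro θ h0
        have h1 := circleMap_mem_sphere z hρ.le θ
        rw [mem_sphere, dist_eq_norm, h0, norm_zero] at h1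
        exact hρ.ne h1
      refine Continuous.aestronglyMeasurable ?_
      have h1 : Continuous fun θ : ℝ => _root_.deriv (circleMap z ρ) θ := by
        simp only [deriv_circleMap]
        exact (continuous_circleMap 0 ρ).mul continuous_const
      have h2 : Continuous fun θ : ℝ => 1 / (circleMap z ρ θ - z) ^ 2 :=
        continuous_const.div (((continuous_circleMap z ρ).sub continuous_const).pow 2)
          fun θ => pow_ne_zero 2 (hne θ)
      exact h1.smul (h2.smul hc)
    · refine eventually_of_mem self_mem_nhdsWithin fun t ht => ?_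
      refine Eventually.of_forall fun θ _ => ?_
      have h1 : ‖circleMap z ρ θ - z‖ = ρ := by
        have := circleMap_mem_sphere z hρ.le θ
        rwa [mem_sphere, dist_eq_norm] at this
      rw [norm_smul, norm_smul, norm_div, norm_pow, h1, deriv_circleMap, norm_mul, Complex.norm_I,
        norm_one, mul_one, norm_circleMap_zero, abs_of_pos hρ]
      have := hM _ (sphere_subset_closedBall (circleMap_mem_sphere z hρ.le θ)) t ht
      gcongr
    · exact intervalIntegrable_const
    · refine Eventually.of_forall fun θ _ => ?_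
      have := h.con _ (hsub (sphere_subset_closedBall (circleMap_mem_sphere z hρ.le θ))) t0 ht0
      simp only [smul_eq_mul]
      exact continuousWithinAt_const.mul (continuousWithinAt_const.mul this)
  · intro z hz
    obtain ⟨ρ, hρ, hsub, M, hM⟩ := h.bd z hz
    refine ⟨ρ / 2, by positivity, (closedBall_subset_closedBall (by linarith)).trans hsub,
      M / (ρ / 2), ?_⟩
    intro w hw t ht
    have hs : closedBall w (ρ / 2) ⊆ closedBall z ρ := by
      refine closedBall_subset_closedBall' ?_
      rw [mem_closedBall] at hw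
      linarith
    refine Complex.norm_deriv_le_of_forall_mem_sphere_norm_le (by positivity)
      ((h.hol t ht).diffContOnCl_ball (hs.trans hsub)) ?_
    intro x hx
    exact hM x (hs (sphere_subset_closedBall hx)) t ht


theorem LB.iter {U : Set ℂ} {T : ℝ} {G : ℂ → ℝ → ℂ} (hU : IsOpen U) (h : LB U T G) (j : ℕ) :
    LB U T (fun z t => iteratedDeriv j (fun w => G w t) z) := by
  induction j with
  | zero => simpa using h
  | succ j ih =>
    have := ih.deriv hU
    simp only [iteratedDeriv_succ]
    exact this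

theorem LB.int {U : Set ℂ} {T : ℝ} {G : ℂ → ℝ → ℂ} (hU : IsOpen U) (h : LB U T G) {z : ℂ}
    (hz : z ∈ U) (k : ℝ → ℂ) (hk : Continuous k) {t : ℝ} (ht : t ∈ Icc 0 T) :
    HasDerivAt (fun w => ∫ τ in (0 : ℝ)..t, k τ * G w τ)
      (∫ τ in (0 : ℝ)..t, k τ * _root_.deriv (fun w => G w τ) z) z := by
  have h' := h.deriv hU
  obtain ⟨ρ, hρ, hsub, M, hM⟩ := h'.bd z hz
  have hI : Ι 0 t ⊆ Icc 0 T := by
    rw [uIoc_of_le ht.1]
    exact fun x hx => ⟨hx.1.le, hx.2.trans ht.2⟩
  obtain ⟨K, hK⟩ : ∃ K : ℝ, ∀ τ ∈ Icc 0 T, ‖k τ‖ ≤ K := by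
    obtain ⟨K, hK⟩ := (isCompact_Icc (a := (0 : ℝ)) (b := T)).exists_bound_of_continuousOn
      hk.continuousOn
    exact ⟨K, hK⟩
  have hmeas : ∀ F : ℂ → ℝ → ℂ, (∀ w ∈ U, ContinuousOn (fun t => F w t) (Icc 0 T)) → ∀ w ∈ U,
      AEStronglyMeasurable (fun τ => k τ * F w τ) (volume.restrict (Ι 0 t)) := by
    intro F hF w hw
    refine ContinuousOn.aestronglyMeasurable ?_ measurableSet_uIoc
    exact hk.continuousOn.mul ((hF w hw).mono hI)
  refine (intervalIntegral.hasDerivAt_integral_of_dominated_loc_of_deriv_le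
    (F' := fun w τ => k τ * _root_.deriv (fun w => G w τ) w) (bound := fun _ => K * M)
    (s := ball z ρ) (ball_mem_nhds z hρ) ?_ ?_ ?_ ?_ ?_ ?_).2
  · filter_upwards [hU.mem_nhds hz] with w hw
    exact hmeas G h.con w hw
  · refine ContinuousOn.intervalIntegrable ?_
    rw [uIcc_of_le ht.1]
    exact hk.continuousOn.mul ((h.con z hz).mono (Icc_subset_Icc_right ht.2))
  · exact hmeas (fun z t => _root_.deriv (fun w => G w t) z) h'.con z hz
  · refine Eventually.of_forall fun τ hτ x hx => ?_
    rw [norm_mul]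
    have h1 := hK τ (hI hτ)
    have h2 := hM x (ball_subset_closedBall hx) τ (hI hτ)
    exact mul_le_mul h1 h2 (norm_nonneg _) ((norm_nonneg _).trans h1)
  · exact intervalIntegrable_const
  · refine Eventually.of_forall fun τ hτ x hx => ?_
    have hx' : x ∈ U := hsub (ball_subset_closedBall hx)
    have := ((h.hol τ (hI hτ)).differentiableAt (hU.mem_nhds hx')).hasDerivAt
    exact this.const_mul _

/-- Duhamel's formula for all derivatives -/
theorem duh_iter {U : Set ℂ} {T : ℝ} {V : ℂ → ℝ → ℂ} {A : ℂ → ℂ} (hU : IsOpen U) (h : LB U T V)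
    (hA : DifferentiableOn ℂ A U)
    (hd : ∀ z ∈ U, ∀ t ∈ Icc 0 T, V z t = A z * Real.sin t -
      ∫ τ in (0 : ℝ)..t, (Real.sin (t - τ) : ℂ) * _root_.deriv (fun w => V w τ) z) (j : ℕ) :
    ∀ z ∈ U, ∀ t ∈ Icc 0 T, iteratedDeriv j (fun w => V w t) z = iteratedDeriv j A z * Real.sin t -
      ∫ τ in (0 : ℝ)..t, (Real.sin (t - τ) : ℂ) * iteratedDeriv (j + 1) (fun w => V w τ) z := by
  induction j with
  | zero => simpa using hd
  | succ j ih =>
    intro z hz t ht
    have hAj : DifferentiableAt ℂ (iteratedDeriv j A) z := by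
      have hAn : AnalyticAt ℂ A z := hA.analyticAt (hU.mem_nhds hz)
      rw [iteratedDeriv_eq_iterate]
      exact (hAn.iterated_deriv j).differentiableAt
    have h1 : iteratedDeriv (j + 1) (fun w => V w t) z =
        _root_.deriv (fun z => iteratedDeriv j (fun w => V w t) z) z := by
      rw [iteratedDeriv_succ]
    have h2 : (fun z => iteratedDeriv j (fun w => V w t) z) =ᶠ[𝓝 z] fun z =>
        iteratedDeriv j A z * Real.sin t -
      ∫ τ in (0 : ℝ)..t, (Real.sin (t - τ) : ℂ) * iteratedDeriv (j + 1) (fun w => V w τ) z := by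
      filter_upwards [hU.mem_nhds hz] with w hw
      exact ih w hw t ht
    rw [h1, h2.deriv_eq]
    have h3 := (h.iter hU (j + 1)).int hU hz (fun τ => (Real.sin (t - τ) : ℂ)) (by fun_prop) ht
    have h4 := (hAj.hasDerivAt.mul_const (Real.sin t : ℂ)).sub h3
    refine h4.deriv.trans ?_
    simp only [iteratedDeriv_succ]

end Pool.Agent.X197.HSB
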