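import Pool.Agent.X115.HS.Stm
import Pool.Agent.X197.HSB.LB

set_option autoImplicit false

namespace Pool.Agent.X197.HSB

open MeasureTheory Set Filter Topology Real Metric Pool.Agent.X115.HS
open scoped Interval

theorem re_pos_of_mem {s : ℝ} (hs : 0 < s) {z : ℂ} (hz : ‖z - s‖ ≤ s / 2) : 0 < z.re := by
  have h1 : |(z - s).re| ≤ ‖z - s‖ := Complex.abs_re_le_norm _
  have h2 : (z - s).re = z.re - s := by simp
  rw [h2] at h1
  have := (abs_le.1 (h1.trans hz)).1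
  linarith

theorem lb_of_AD {V W : ℂ → ℝ → ℂ} {A : ℂ → ℂ} (h : AD V W A) (s : ℝ) (hs : 0 < s) (T : ℝ) :
    LB (ball (s : ℂ) (s / 2)) T V := by
  have hre : ∀ z ∈ ball (s : ℂ) (s / 2), 0 < z.re := fun z hz =>
    re_pos_of_mem hs (by rw [mem_ball, dist_eq_norm] at hz; exact hz.le)
  refine ⟨fun t ht z hz => ((h.dV z (hre z hz) t ht.1).differentiableAt).differentiableWithinAt,
    fun z hz => (h.cV z (hre z hz)).mono Icc_subset_Ici_self, ?_⟩
  intro z hz
  obtain ⟨M, hM⟩ := h.bdd T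
  have hz' := hz
  rw [mem_ball] at hz'
  refine ⟨(s / 2 - dist z s) / 2, by linarith, ?_, M, ?_⟩
  · intro w hw
    rw [mem_closedBall] at hw
    rw [mem_ball]
    have := dist_triangle w z s
    linarith
  · intro w hw t ht
    refine hM s hs w ?_ t ht
    rw [mem_closedBall] at hw
    rw [← dist_eq_norm]
    have := dist_triangle w z s
    linarith

/-- Duhamel's formula at the real points, for all derivatives -/
theorem duhj {V W : ℂ → ℝ → ℂ} {A : ℂ → ℂ} (h : AD V W A) (s : ℝ) (hs : 0 < s) (j : ℕ) (t : ℝ)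
    (ht : 0 ≤ t) : iteratedDeriv j (fun w => V w t) s = iteratedDeriv j A s * Real.sin t -
      ∫ τ in (0 : ℝ)..t, (Real.sin (t - τ) : ℂ) * iteratedDeriv (j + 1) (fun w => V w τ) s := by
  have hre : ∀ z ∈ ball (s : ℂ) (s / 2), 0 < z.re := fun z hz =>
    re_pos_of_mem hs (by rw [mem_ball, dist_eq_norm] at hz; exact hz.le)
  refine duh_iter (T := t) isOpen_ball (lb_of_AD h s hs t)
    (fun z hz => (h.dA z (hre z hz)).differentiableWithinAt) ?_ j s
    (mem_ball_self (by positivity)) t ⟨ht, le_rfl⟩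
  intro z hz t' ht'
  rw [h.duh z (hre z hz) t' ht'.1]
  congr 1
  refine intervalIntegral.integral_congr fun τ hτ => ?_
  rw [uIcc_of_le ht'.1] at hτ
  show _ = _
  rw [(h.dV z (hre z hz) τ hτ.1).deriv]

theorem dcc {V W : ℂ → ℝ → ℂ} {A : ℂ → ℂ} (h : AD V W A) (s : ℝ) (hs : 0 < s) (t : ℝ)
    (ht : 0 ≤ t) : DiffContOnCl ℂ (fun w => V w t) (ball (s : ℂ) (s / 2)) := by
  refine DifferentiableOn.diffContOnCl_ball (U := {z | 0 < z.re}) ?_ ?_
  · intro z hz
    exact (h.dV z hz t ht).differentiableAt.differentiableWithinAt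
  · intro z hz
    rw [mem_closedBall, dist_eq_norm] at hz
    exact re_pos_of_mem hs hz

theorem dccA {V W : ℂ → ℝ → ℂ} {A : ℂ → ℂ} (h : AD V W A) (s : ℝ) (hs : 0 < s) :
    DiffContOnCl ℂ A (ball (s : ℂ) (s / 2)) := by
  refine DifferentiableOn.diffContOnCl_ball (U := {z | 0 < z.re}) ?_ ?_
  · intro z hz
    exact (h.dA z hz).differentiableWithinAt
  · intro z hz
    rw [mem_closedBall, dist_eq_norm] at hz
    exact re_pos_of_mem hs hz

/-- bounds for the derivatives of `V` -/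
theorem bdj {V W : ℂ → ℝ → ℂ} {A : ℂ → ℂ} (h : AD V W A) : ∃ M : ℝ, 0 ≤ M ∧ ∀ j : ℕ,
    ∀ s : ℝ, 0 < s → ∀ t ∈ Icc 0 (2 * π), ‖iteratedDeriv j (fun w => V w t) (s : ℂ)‖ ≤
      j.factorial * M / (s / 2) ^ j := by
  obtain ⟨M, hM⟩ := h.bdd (2 * π)
  have hM0 : 0 ≤ M := (norm_nonneg _).trans
    (hM 1 one_pos 1 (by norm_num) 0 ⟨le_rfl, by positivity⟩)
  refine ⟨M, hM0, fun j s hs t ht => ?_⟩
  refine Complex.norm_iteratedDeriv_le_of_forall_mem_sphere_norm_le j (by positivity)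
    (dcc h s hs t ht.1) fun z hz => ?_
  rw [mem_sphere, dist_eq_norm] at hz
  exact hM s hs z hz.le t ht

/-- the integral in Duhamel's formula is small -/
theorem int_small (u : ℝ → ℂ) (S : ℝ) (hu : ∀ t ∈ Icc 0 (2 * π), ‖u t‖ ≤ S)
    (t : ℝ) (ht : t ∈ Icc 0 (2 * π)) :
    ‖∫ τ in (0 : ℝ)..t, (Real.sin (t - τ) : ℂ) * u τ‖ ≤ 2 * π * S := by
  have hS : 0 ≤ S := (norm_nonneg _).trans (hu 0 ⟨le_rfl, by positivity⟩)
  have h1 : ‖∫ τ in (0 : ℝ)..t, (Real.sin (t - τ) : ℂ) * u τ‖ ≤ S * |t - 0| := by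
    refine intervalIntegral.norm_integral_le_of_norm_le_const fun τ hτ => ?_
    rw [uIoc_of_le ht.1] at hτ
    rw [norm_mul, Complex.norm_real, Real.norm_eq_abs]
    calc |Real.sin (t - τ)| * ‖u τ‖ ≤ 1 * S := by
          refine mul_le_mul (abs_le.2 ⟨Real.neg_one_le_sin _, Real.sin_le_one _⟩)
            (hu τ ⟨hτ.1.le, hτ.2.trans ht.2⟩) (norm_nonneg _) zero_le_one
      _ = S := one_mul S
  rw [sub_zero, abs_of_nonneg ht.1] at h1
  calc _ ≤ S * t := h1
    _ ≤ S * (2 * π) := mul_le_mul_of_nonneg_left ht.2 hS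
    _ = _ := by ring

/-- the downward recursion -/
theorem recur {V W : ℂ → ℝ → ℂ} {A : ℂ → ℂ} (κ : ℝ) (hκ : 0 ≤ κ) (h : AD V W A)
    (hA : ∀ s : ℝ, 0 < s → ∀ z : ℂ, ‖z - s‖ ≤ s / 2 → ‖A z‖ ≤ κ * (A ((9 / 2 * s : ℝ) : ℂ)).re)
    (hA1 : ∀ s : ℝ, 0 < s → 0 ≤ (A (s : ℂ)).re)
    (m : ℕ) : ∀ j : ℕ, 2 ≤ j → ∃ C : ℝ, 0 ≤ C ∧ ∀ s : ℝ, 1 ≤ s → ∀ t ∈ Icc 0 (2 * π),
      ‖iteratedDeriv j (fun w => V w t) (s : ℂ)‖ ≤
        C * ((A ((9 / 2 * s : ℝ) : ℂ)).re / s ^ 2 + 1 / s ^ (j + m)) := by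
  have ha : ∀ s : ℝ, 1 ≤ s → 0 ≤ (A ((9 / 2 * s : ℝ) : ℂ)).re := fun s hs =>
    hA1 _ (by linarith)
  induction m with
  | zero =>
    intro j hj
    obtain ⟨M, hM0, hM⟩ := bdj h
    refine ⟨j.factorial * M * 2 ^ j, by positivity, fun s hs t ht => ?_⟩
    have hs0 : 0 < s := by linarith
    refine (hM j s hs0 t ht).trans ?_
    have h1 : (j.factorial : ℝ) * M / (s / 2) ^ j = j.factorial * M * 2 ^ j * (1 / s ^ (j + 0)) := by
      rw [div_pow, add_zero]
      field_simp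
    rw [h1]
    refine mul_le_mul_of_nonneg_left ?_ (by positivity)
    have := div_nonneg (ha s hs) (sq_nonneg s)
    linarith
  | succ m ih =>
    intro j hj
    obtain ⟨C', hC'0, hC'⟩ := ih (j + 1) (by omega)
    refine ⟨j.factorial * κ * 2 ^ j + 2 * π * C', by positivity, fun s hs t ht => ?_⟩
    have hs0 : 0 < s := by linarith
    have has := ha s hs
    set a : ℝ := (A ((9 / 2 * s : ℝ) : ℂ)).re with hadef
    have hAj : ‖iteratedDeriv j A (s : ℂ)‖ ≤ j.factorial * κ * 2 ^ j * (a / s ^ 2) := by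
      have h1 := Complex.norm_iteratedDeriv_le_of_forall_mem_sphere_norm_le j
        (R := s / 2) (C := κ * a) (by positivity) (dccA h s hs0) fun z hz => by
          rw [mem_sphere, dist_eq_norm] at hz
          exact hA s hs0 z hz.le
      refine h1.trans ?_
      have h2 : (j.factorial : ℝ) * (κ * a) / (s / 2) ^ j =
          j.factorial * κ * 2 ^ j * (a / s ^ j) := by
        rw [div_pow]
        field_simp
      rw [h2]
      have h3 : s ^ 2 ≤ s ^ j := pow_le_pow_right₀ hs hj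
      have h4 : a / s ^ j ≤ a / s ^ 2 := div_le_div_of_nonneg_left has (by positivity) h3
      exact mul_le_mul_of_nonneg_left h4 (by positivity)
    have hint := int_small (fun τ => iteratedDeriv (j + 1) (fun w => V w τ) (s : ℂ))
      (C' * (a / s ^ 2 + 1 / s ^ (j + 1 + m))) (fun τ hτ => hC' s hs τ hτ) t ht
    rw [duhj h s hs0 j t ht.1]
    refine (norm_sub_le _ _).trans ?_
    have hsin : ‖iteratedDeriv j A (s : ℂ) * Real.sin t‖ ≤ j.factorial * κ * 2 ^ j * (a / s ^ 2) := by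
      rw [norm_mul, Complex.norm_real, Real.norm_eq_abs]
      calc _ ≤ ‖iteratedDeriv j A (s : ℂ)‖ * 1 := mul_le_mul_of_nonneg_left
            (abs_le.2 ⟨Real.neg_one_le_sin _, Real.sin_le_one _⟩) (norm_nonneg _)
        _ ≤ _ := by rw [mul_one]; exact hAj
    have he : j + 1 + m = j + (m + 1) := by ring
    rw [he] at hint
    have hp : 0 ≤ (j.factorial : ℝ) * κ * 2 ^ j * (1 / s ^ (j + (m + 1))) := by positivity
    calc _ ≤ j.factorial * κ * 2 ^ j * (a / s ^ 2) +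
          2 * π * (C' * (a / s ^ 2 + 1 / s ^ (j + (m + 1)))) := add_le_add hsin hint
      _ ≤ _ := by
        have : (j.factorial * κ * 2 ^ j + 2 * π * C') * (a / s ^ 2 + 1 / s ^ (j + (m + 1))) =
          j.factorial * κ * 2 ^ j * (a / s ^ 2) +
          2 * π * (C' * (a / s ^ 2 + 1 / s ^ (j + (m + 1)))) +
          j.factorial * κ * 2 ^ j * (1 / s ^ (j + (m + 1))) := by ring
        rw [this]
        linarith

/-- the value at `2 π` -/
theorem val2pi {V W : ℂ → ℝ → ℂ} {A : ℂ → ℂ} (h : AD V W A) (s : ℝ) (hs : 0 < s) (S : ℝ)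
    (hS : ∀ t ∈ Icc 0 (2 * π), ‖iteratedDeriv 2 (fun w => V w t) (s : ℂ)‖ ≤ S) :
    ‖V s (2 * π) - π * deriv A s‖ ≤ 2 * π * (2 * π * S) := by
  have h0 := duhj h s hs 0 (2 * π) (by positivity)
  have h1 : ∀ t ∈ Icc 0 (2 * π), iteratedDeriv 1 (fun w => V w t) s = iteratedDeriv 1 A s *
      Real.sin t - ∫ τ in (0 : ℝ)..t, (Real.sin (t - τ) : ℂ) *
        iteratedDeriv 2 (fun w => V w τ) s := fun t ht => duhj h s hs 1 t ht.1
  have hcon : ContinuousOn (fun t => iteratedDeriv 1 (fun w => V w t) (s : ℂ))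
      (Icc 0 (2 * π)) := ((lb_of_AD h s hs (2 * π)).iter isOpen_ball 1).con s
    (mem_ball_self (by positivity))
  set a1 : ℂ := iteratedDeriv 1 A s with ha1
  have hr := int_small (fun τ => iteratedDeriv 1 (fun w => V w τ) (s : ℂ) - a1 * Real.sin τ)
    (2 * π * S) (fun t ht => by
      rw [h1 t ht]
      have := int_small _ S hS t ht
      rw [sub_right_comm, sub_self, zero_sub, norm_neg]
      exact this) (2 * π) ⟨by positivity, le_rfl⟩
  have hV : V s (2 * π) - π * deriv A s = -∫ τ in (0 : ℝ)..2 * π, (Real.sin (2 * π - τ) : ℂ) *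
      (iteratedDeriv 1 (fun w => V w τ) (s : ℂ) - a1 * Real.sin τ) := by
    have e1 : ∫ τ in (0 : ℝ)..2 * π, (Real.sin (2 * π - τ) : ℂ) *
        (iteratedDeriv 1 (fun w => V w τ) (s : ℂ) - a1 * Real.sin τ) =
        (∫ τ in (0 : ℝ)..2 * π, (Real.sin (2 * π - τ) : ℂ) *
          iteratedDeriv 1 (fun w => V w τ) (s : ℂ)) -
        ∫ τ in (0 : ℝ)..2 * π, (Real.sin (2 * π - τ) : ℂ) * (a1 * Real.sin τ) := by
      rw [← intervalIntegral.integral_sub]
      · refine intervalIntegral.integral_congr fun τ _ => ?_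
        show _ = _
        ring
      · refine ContinuousOn.intervalIntegrable ?_
        rw [uIcc_of_le (by positivity)]
        exact (Continuous.continuousOn (by fun_prop)).mul hcon
      · refine Continuous.intervalIntegrable ?_ _ _
        fun_prop
    have e2 : ∫ τ in (0 : ℝ)..2 * π, (Real.sin (2 * π - τ) : ℂ) * (a1 * Real.sin τ) =
        -(π * a1) := by
      have e3 : ∀ τ : ℝ, (Real.sin (2 * π - τ) : ℂ) * (a1 * Real.sin τ) =
          -a1 * ((Real.sin τ ^ 2 : ℝ) : ℂ) := by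
        intro τ
        rw [Real.sin_two_pi_sub]
        push_cast
        ring
      simp only [e3]
      rw [intervalIntegral.integral_const_mul, intervalIntegral.integral_ofReal, integral_sin_sq]
      simp only [Real.sin_zero, Real.sin_two_pi]
      push_cast
      ring
    rw [e1, e2, ← iteratedDeriv_one, ← ha1]
    rw [iteratedDeriv_zero, iteratedDeriv_zero, Real.sin_two_pi] at h0
    rw [h0]
    push_cast
    ring
  rw [hV, norm_neg]
  exact hr

/-- bound for the derivative of `A` at infinity and its limit -/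
theorem A_small {V W : ℂ → ℝ → ℂ} {A : ℂ → ℂ} (h : AD V W A)
    (hA1 : ∀ s : ℝ, 0 < s → (A (s : ℂ)).im = 0 ∧ 0 ≤ (A (s : ℂ)).re)
    (hV : ∀ s : ℝ, 0 < s → ∀ t : ℝ, 0 ≤ t → Real.cos t - 1 ≤ (V (s : ℂ) t).re) :
    ∃ K : ℝ, 0 ≤ K ∧ ∀ s : ℝ, 0 < s → ∀ δ : ℝ, 0 < δ → δ ≤ 1 →
      (A (s : ℂ)).re ≤ δ + K / (s * δ) := by
  obtain ⟨M, hM0, hM⟩ := bdj h
  refine ⟨8 * π * M, by positivity, fun s hs δ hδ hδ1 => ?_⟩
  have hδπ : δ < π := by linarith [Real.pi_gt_three]
  have ht : (2 * π - δ) ∈ Icc 0 (2 * π) := ⟨by linarith, by linarith⟩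
  have h0 := duhj h s hs 0 (2 * π - δ) ht.1
  have h1 := int_small (fun τ => iteratedDeriv (0 + 1) (fun w => V w τ) (s : ℂ))
    (Nat.factorial (0 + 1) * M / (s / 2) ^ (0 + 1)) (fun t ht => hM (0 + 1) s hs t ht) _ ht
  set I : ℂ := ∫ τ in (0 : ℝ)..(2 * π - δ), (Real.sin (2 * π - δ - τ) : ℂ) *
    iteratedDeriv (0 + 1) (fun w => V w τ) (s : ℂ) with hI
  rw [iteratedDeriv_zero, iteratedDeriv_zero, Real.sin_two_pi_sub] at h0
  have h2 := hV s hs (2 * π - δ) ht.1
  rw [Real.cos_two_pi_sub] at h2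
  have h3 : (V (s : ℂ) (2 * π - δ)).re = -((A (s : ℂ)).re * Real.sin δ) - I.re := by
    rw [h0, Complex.sub_re, Complex.re_mul_ofReal]
    ring
  have h4 : |I.re| ≤ ‖I‖ := Complex.abs_re_le_norm _
  have h5 : (Nat.factorial (0 + 1) : ℝ) * M / (s / 2) ^ (0 + 1) = 2 * M / s := by
    simp
    field_simp
  rw [h5] at h1
  have h6 := (abs_le.1 (h4.trans h1)).1
  have h7 := Real.one_sub_sq_div_two_le_cos (x := δ)
  have h8 : δ / 2 ≤ Real.sin δ := by
    have := Real.mul_le_sin hδ.le (by linarith [Real.pi_gt_three])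
    have h9 : 1 / 2 ≤ 2 / π := by
      rw [div_le_div_iff₀ (by norm_num) Real.pi_pos]
      linarith [Real.pi_lt_four]
    nlinarith
  have h10 := (hA1 s hs).2
  have h11 : (A (s : ℂ)).re * (δ / 2) ≤ δ ^ 2 / 2 + 2 * π * (2 * M / s) := by
    have : (A (s : ℂ)).re * (δ / 2) ≤ (A (s : ℂ)).re * Real.sin δ :=
      mul_le_mul_of_nonneg_left h8 h10
    linarith
  have h12 : (A (s : ℂ)).re ≤ (δ ^ 2 / 2 + 2 * π * (2 * M / s)) / (δ / 2) := by
    rw [le_div_iff₀ (by positivity)]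
    exact h11
  refine h12.trans (le_of_eq ?_)
  field_simp
  ring

theorem t_EXPN : S_EXPN := by
  intro V W A κ h hA hA1 hV
  have hκ : ∀ s : ℝ, 0 < s → ∀ z : ℂ, ‖z - s‖ ≤ s / 2 →
      ‖A z‖ ≤ |κ| * (A ((9 / 2 * s : ℝ) : ℂ)).re := fun s hs z hz =>
    (hA s hs z hz).trans (mul_le_mul_of_nonneg_right (le_abs_self κ) (hA1 _ (by positivity)).2)
  obtain ⟨K, hK0, hK⟩ := A_small h hA1 hV
  have hder : ∀ s : ℝ, 0 < s →
      HasDerivAt (fun s : ℝ => (A (s : ℂ)).re) (deriv A (s : ℂ)).re s := by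
    intro s hs
    have : 0 < ((s : ℂ)).re := by simpa using hs
    exact (h.dA s this).hasDerivAt.real_of_complex
  refine ⟨fun s hs => (hder s hs).differentiableAt, ⟨1 + K, fun s hs => ?_⟩, ?_, ?_⟩
  · have h1 := hK s (by linarith) 1 one_pos le_rfl
    refine h1.trans ?_
    have : K / (s * 1) ≤ K := by
      rw [mul_one]
      exact div_le_self hK0 hs
    linarith
  · rw [Metric.tendsto_atTop]
    intro ε hε
    set δ : ℝ := min (ε / 2) 1 with hδ
    have hδ0 : 0 < δ := lt_min (by positivity) one_pos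
    refine ⟨max 1 ((K + 1) / (δ * (ε / 2))), fun s hs => ?_⟩
    have hs1 : 1 ≤ s := (le_max_left _ _).trans hs
    have hs2 : (K + 1) / (δ * (ε / 2)) ≤ s := (le_max_right _ _).trans hs
    have hs0 : 0 < s := by linarith
    rw [Real.dist_eq, sub_zero, abs_of_nonneg (hA1 s hs0).2]
    have h1 := hK s hs0 δ hδ0 (min_le_right _ _)
    have h2 : δ ≤ ε / 2 := min_le_left _ _
    have h3 : K / (s * δ) < ε / 2 := by
      rw [div_lt_iff₀ (by positivity)]
      rw [div_le_iff₀ (by positivity)] at hs2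
      nlinarith
    linarith
  · intro J
    obtain ⟨C, hC0, hC⟩ := recur |κ| (abs_nonneg κ) h hκ (fun s hs => (hA1 s hs).2) J 2 le_rfl
    refine ⟨4 * π * C, fun s hs => ?_⟩
    have hs0 : 0 < s := by linarith
    have h1 := val2pi h s hs0 _ (fun t ht => hC s hs t ht)
    have h2 := hV s hs0 (2 * π) (by positivity)
    rw [Real.cos_two_pi, sub_self] at h2
    rw [(hder s hs0).deriv]
    have h3 := (abs_le.1 ((Complex.abs_re_le_norm _).trans h1)).2
    have h4 : (V (s : ℂ) (2 * π) - π * deriv A (s : ℂ)).re =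
        (V (s : ℂ) (2 * π)).re - π * (deriv A (s : ℂ)).re := by
      simp
    rw [h4] at h3
    set a : ℝ := (A ((9 / 2 * s : ℝ) : ℂ)).re with hadef
    have h5 : 1 / s ^ (2 + J) ≤ 1 / s ^ (J + 1) :=
      one_div_le_one_div_of_le (by positivity) (pow_le_pow_right₀ hs (by omega))
    have h6 : -(π * (deriv A (s : ℂ)).re) ≤ 2 * π * (2 * π * (C * (a / s ^ 2 + 1 / s ^ (J + 1)))) := by
      have : 2 * π * (2 * π * (C * (a / s ^ 2 + 1 / s ^ (2 + J)))) ≤
          2 * π * (2 * π * (C * (a / s ^ 2 + 1 / s ^ (J + 1)))) := by gcongr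
      linarith
    have h7 : π * (-(4 * π * C * (a / s ^ 2 + 1 / s ^ (J + 1)))) ≤ π * (deriv A (s : ℂ)).re := by
      have : π * (-(4 * π * C * (a / s ^ 2 + 1 / s ^ (J + 1)))) =
        -(2 * π * (2 * π * (C * (a / s ^ 2 + 1 / s ^ (J + 1))))) := by ring
      rw [this]
      linarith
    exact le_of_mul_le_mul_left h7 Real.pi_pos

end Pool.Agent.X197.HSB

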